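import Pool.Agent.TH997.US.F3

/-!
# The set `S` is decidable
-/

set_option autoImplicit false

namespace Pool.Agent.Helper48.US

open Polynomial Finset Pool.Agent.H692R2.USS Pool.Agent.TH997.US
open Pool.Agent.Helper446.RE (allB allB_iff computable_allB exB exB_iff computable_exB cp_eq cp_le
  cp_lt cp_comp cp_of_re computable_of_graph)
open scoped Classical

open Pool.Agent.TH997.US.F3 (cfact)

attribute [local fun_prop] cfact

/-- The condition in the definition of `iSeq`. -/
def PI (k i : ℕ) : Prop :=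
  (k + 1) * ((range i.factorial).filter (fun n => ¬ Good i k n)).card ≤ i.factorial

theorem pi_computable : ComputablePred (fun x : ℕ × ℕ => PI x.1 x.2) := by
  unfold PI
  refine cp_le ?_ (by fun_prop)
  have h1 : Computable (fun x : ℕ × ℕ =>
      ((range x.2.factorial).filter (fun n => ¬ Good x.2 x.1 n)).card) := by
    refine ccount (p := fun (x : ℕ × ℕ) n => ¬ Good x.2 x.1 n) ?_ (by fun_prop)
    refine ComputablePred.not ?_
    exact cp_comp good_computable (f := fun x : (ℕ × ℕ) × ℕ => (x.1.2, x.1.1, x.2)) (by fun_prop)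
  fun_prop

theorem pi_exists (h : GoodDensity) (k : ℕ) : ∃ i, PI k i := by
  obtain ⟨i0, hi0⟩ := h k (1 / ((k : ℝ) + 1)) (by positivity)
  refine ⟨i0, ?_⟩
  have h1 := hi0 i0 le_rfl
  unfold PI
  have hk : (0 : ℝ) < (k : ℝ) + 1 := by positivity
  rw [one_div, inv_mul_eq_div, le_div_iff₀ hk] at h1
  have h2 : (((k + 1) * ((range i0.factorial).filter (fun n => ¬ Good i0 k n)).card : ℕ) : ℝ) ≤
      ((i0.factorial : ℕ) : ℝ) := by
    push_cast
    linarith
  exact_mod_cast h2

theorem iSeq_computable (h : GoodDensity) : Computable iSeq := by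
  refine computable_of_graph ?_
  refine ComputablePred.to_re ?_
  have h1 : ComputablePred (fun x : ℕ × ℕ => PI x.1 x.2 ∧ ∀ j < x.2, ¬ PI x.1 j) := by
    refine cp_and pi_computable ?_
    refine cp_all (p := fun (x : ℕ × ℕ) j => ¬ PI x.1 j) ?_ (by fun_prop)
    refine ComputablePred.not ?_
    exact cp_comp pi_computable (f := fun x : (ℕ × ℕ) × ℕ => (x.1.1, x.2)) (by fun_prop)
  refine h1.of_eq fun x => ?_
  obtain ⟨k, i⟩ := x
  simp only
  have hne : {i | PI k i}.Nonempty := pi_exists h k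
  have e : iSeq k = sInf {i | PI k i} := rfl
  rw [e]
  constructor
  · rintro ⟨h2, h3⟩
    refine le_antisymm (Nat.sInf_le h2) ?_
    by_contra hcon
    exact h3 _ (not_le.1 hcon) (Nat.sInf_mem hne)
  · rintro rfl
    exact ⟨Nat.sInf_mem hne, fun j hj => Nat.notMem_of_lt_sInf (s := {i | PI k i}) hj⟩

theorem nSeq_computable (h : GoodDensity) : Computable NSeq := by
  have hi := iSeq_computable h
  have h1 := Computable.nat_rec (f := fun n : ℕ => n) (g := fun _ : ℕ => (0 : ℕ))
    (h := fun (_ : ℕ) (y : ℕ × ℕ) => (y.1 + 1) * (y.2 + (iSeq y.1).factorial +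
      (iSeq (y.1 + 1)).factorial + 1)) Computable.id (Computable.const 0) (by
      have e1 : Computable (fun z : ℕ × ℕ × ℕ => (iSeq z.2.1).factorial) :=
        cfact (hi.comp (by fun_prop))
      have e2 : Computable (fun z : ℕ × ℕ × ℕ => (iSeq (z.2.1 + 1)).factorial) :=
        cfact (hi.comp (by fun_prop))
      have e3 : Computable (fun z : ℕ × ℕ × ℕ => (z.2.1 + 1) * (z.2.2 + (iSeq z.2.1).factorial +
        (iSeq (z.2.1 + 1)).factorial + 1)) := by fun_prop
      exact e3)
  refine h1.of_eq fun n => ?_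
  induction n with
  | zero => rfl
  | succ n ih => rw [NSeq, ← ih]

theorem lev_computable (h : GoodDensity) : Computable lev := by
  have hN := nSeq_computable h
  refine computable_of_graph ?_
  refine ComputablePred.to_re ?_
  have hN1 : Computable (fun x : ℕ × ℕ => NSeq x.2) := hN.comp (by fun_prop)
  have hN2 : Computable (fun x : (ℕ × ℕ) × ℕ => NSeq x.2) := hN.comp (by fun_prop)
  have h1 : ComputablePred (fun x : ℕ × ℕ => (x.2 ≤ x.1 ∧ (x.2 = 0 ∨ NSeq x.2 ≤ x.1)) ∧
      ∀ j < x.1 + 1, (j ≤ x.2 ∨ ¬ NSeq j ≤ x.1)) := by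
    refine cp_and (cp_and (cp_le (by fun_prop) (by fun_prop)) (cp_or (cp_eq (by fun_prop)
      (by fun_prop)) (cp_le hN1 (by fun_prop)))) ?_
    refine cp_all (p := fun (x : ℕ × ℕ) j => j ≤ x.2 ∨ ¬ NSeq j ≤ x.1) ?_ (by fun_prop)
    exact cp_or (cp_le (by fun_prop) (by fun_prop)) (ComputablePred.not (cp_le hN2 (by fun_prop)))
  refine h1.of_eq fun x => ?_
  obtain ⟨n, k⟩ := x
  simp only
  unfold lev
  rw [Nat.findGreatest_eq_iff]
  constructor
  · rintro ⟨⟨h2, h3⟩, h4⟩
    refine ⟨h2, fun hk => h3.resolve_left hk, fun j hj hj2 => ?_⟩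
    rcases h4 j (by omega) with h5 | h5
    · omega
    · exact h5
  · rintro ⟨h2, h3, h4⟩
    refine ⟨⟨h2, ?_⟩, fun j hj => ?_⟩
    · by_cases hk : k = 0
      · exact Or.inl hk
      · exact Or.inr (h3 hk)
    · by_cases hjk : j ≤ k
      · exact Or.inl hjk
      · exact Or.inr (h4 (by omega) (by omega))

/-- **B1.** -/
theorem t_B1 : Pool.Agent.TH997.US.B1 := by
  intro h
  refine ⟨nSeq_computable h, ?_⟩
  have hl := lev_computable h
  have hi := iSeq_computable h
  have e1 : Computable (fun n : ℕ => iSeq (lev n)) := hi.comp hl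
  exact cp_comp good_computable (f := fun n : ℕ => (iSeq (lev n), lev n, n)) (by fun_prop)

end Pool.Agent.Helper48.US
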